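import Pool.Agent.Run7.h657.UD

/-!
Product formula for the vertex function of an arbitrary zero dimensional Nakajima quiver variety
of a loop free quiver. The definitions are in `Pool.Agent.Run7.h657.Def` and
`Pool.Agent.Run7.h657.Def2`.
-/

namespace Pool.Agent.Results.MP_8be872_ag.ProductFormula

open Finset Pool.Agent.Run7.h657.Vx

/-- **Product formula.** Let `M` be a stable point of a zero dimensional quiver variety (loop free
quiver, any dimension vectors). Then `M` has a basis of torus weight vectors, ordered by level.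
For every such basis, with weights `x`, the vertex function `intVertex` (residue formula at `x`,
with the factor `(ħ - 1)^{∑ v_i} / |W_x|`; only nonnegative degrees of Chern roots contribute) is
the product over the positive real roots `α` with `(α, μ) < 0` (finitely many) of
`∏_{i < -(α, μ)} Φ(ħ (ħ/q)^i e^α) / Φ((ħ/q)^i e^α)`. If the weights of each tautological bundle
are distinct (`MultFree`) the vertex function is the sum over the torus fixed quasimaps. -/
theorem result {K V A W P : Type*} [Field K] [CharZero K] [Fintype V] [Fintype A] [Fintype W]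
    [Fintype P] [DecidableEq V] (Γ : FQuiver V A W)
    (hl : ∀ e, Γ.tail e ≠ Γ.head e) (T : Par K A W) (hT : Independent T) (c : P → V)
    (M : Rep K A W P) (hM : IsPoint Γ c M) (hd : DimZero Γ c) :
    (∃ (_ : LinearOrder P) (x : P → Kˣ) (M' : Rep K A W P),
      Iso c M M' ∧ TorusFixed T x M' ∧ LevelOrder T x) ∧
    ∀ [LinearOrder P] (x : P → Kˣ) (M' : Rep K A W P),
      Iso c M M' → TorusFixed T x M' → LevelOrder T x →
      (∀ δ, iterRes (integrand Γ T c x δ) ≠ 0 → ∀ r, 0 ≤ δ r) ∧
      (MultFree Γ T c x M' → intVertex Γ T c x = vertex Γ T c x M') ∧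
      ∃ R : Finset (V →₀ ℕ),
        (∀ α, α ∈ R ↔ IsRealRoot Γ (fun i => (α i : ℤ)) ∧ pair α (muv Γ c) < 0) ∧
        intVertex Γ T c x *
          ∏ α ∈ R, ∏ i ∈ range (-pair α (muv Γ c)).toNat,
            PhiAt (T.q : K) α (((T.hb : K) / T.q) ^ i *
              ((T.q : K) / T.hb) ^ pair α (bv Γ c)) =
          ∏ α ∈ R, ∏ i ∈ range (-pair α (muv Γ c)).toNat,
            PhiAt (T.q : K) α (T.hb * (((T.hb : K) / T.q) ^ i *
              ((T.q : K) / T.hb) ^ pair α (bv Γ c))) :=
  product_formula_all hl hT hM hd

end Pool.Agent.Results.MP_8be872_ag.ProductFormula
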